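import Pool.Agent.Q18.KZ.S2

/-!
# Project KZ: basic facts for the probability jobs XR, XL, XZ, XM
-/

set_option autoImplicit false

namespace Pool.Agent.Q265.KZ

open Finset Filter Topology MeasureTheory
open scoped Classical
open Pool.Agent.W76.MO (hh nc cell lp Rough)
open Pool.Agent.Q18.KZ

lemma d1_pos : 0 < d1 := by unfold d1; norm_num
lemma d1_lt : d1 < 1 / 10000 := by unfold d1; norm_num
lemma d1_half : -(1 / 2 : ℝ) + d1 ≤ 0 := by have := d1_lt; linarith
lemma e0_pos : 0 < e0 := by unfold e0; norm_num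
lemma th_eq : dd - d1 = 1 / 10 ^ 16 := by unfold dd d1; norm_num
lemma th_pos : 0 < dd - d1 := by rw [th_eq]; norm_num

lemma rho_nonneg (j p : ℕ) : 0 ≤ rho j p := by
  unfold rho
  split_ifs
  · positivity
  · exact le_rfl

lemma rho_le (j p : ℕ) : rho j p ≤ (p : ℝ) ^ (-(1 / 2 : ℝ) + d1) := by
  unfold rho
  split_ifs
  · exact le_rfl
  · positivity

lemma rho_le_one (j p : ℕ) : rho j p ≤ 1 := by
  unfold rho
  split_ifs with h
  · have h1 : (1 : ℝ) ≤ p := by exact_mod_cast h.1.one_lt.le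
    exact Real.rpow_le_one_of_one_le_of_nonpos h1 d1_half
  · exact zero_le_one

lemma rho01 (j : ℕ) : ∀ p, 0 ≤ rho j p ∧ rho j p ≤ 1 := fun p => ⟨rho_nonneg j p, rho_le_one j p⟩

/-- product of the probabilities over a set of primes -/
lemma prod_rho_le (j : ℕ) (s : Finset ℕ) : ∏ p ∈ s, rho j p ≤ ((∏ p ∈ s, p : ℕ) : ℝ) ^ (-(1 / 2 : ℝ) + d1) := by
  rw [Nat.cast_prod, ← Real.finsetProd_rpow _ _ (fun p _ => Nat.cast_nonneg p)]
  exact prod_le_prod (fun p _ => rho_nonneg j p) (fun p _ => rho_le j p)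

/-- union of the exceptional events of the scales `≥ j` -/
lemma tail_event {f : ℕ → ℝ} (hf : Summable f) (hf0 : ∀ i, 0 ≤ f i) : ∃ J : ℕ, ∀ j : ℕ, J ≤ j →
    ∀ (P : Measure (ℕ → Bool)) (B : ℕ → Set (ℕ → Bool)), (∀ i, j ≤ i → P (B i) ≤ ENNReal.ofReal (f i)) →
      P {V | ∃ i, j ≤ i ∧ V ∈ B i} ≤ 1 / 20 := by
  have h1 := tendsto_sum_nat_add f
  have h2 : ∀ᶠ i in atTop, ∑' k, f (k + i) < 1 / 20 := h1.eventually_lt_const (by norm_num)
  obtain ⟨J, hJ⟩ := eventually_atTop.1 h2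
  refine ⟨J, fun j hj P B hB => ?_⟩
  have h3 : {V | ∃ i, j ≤ i ∧ V ∈ B i} ⊆ ⋃ n : ℕ, B (n + j) := by
    rintro V ⟨i, hi, hV⟩
    rw [Set.mem_iUnion]
    refine ⟨i - j, ?_⟩
    rwa [Nat.sub_add_cancel hi]
  calc P {V | ∃ i, j ≤ i ∧ V ∈ B i} ≤ P (⋃ n : ℕ, B (n + j)) := measure_mono h3
    _ ≤ ∑' n : ℕ, P (B (n + j)) := measure_iUnion_le _
    _ ≤ ∑' n : ℕ, ENNReal.ofReal (f (n + j)) := ENNReal.tsum_le_tsum (fun n => hB _ (Nat.le_add_left _ _))
    _ = ENNReal.ofReal (∑' n : ℕ, f (n + j)) := by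
        rw [ENNReal.ofReal_tsum_of_nonneg (fun n => hf0 _) ((summable_nat_add_iff j).2 hf)]
    _ ≤ ENNReal.ofReal (1 / 20) := ENNReal.ofReal_le_ofReal (hJ j hj).le
    _ = 1 / 20 := by
        rw [ENNReal.ofReal_div_of_pos (by norm_num)]
        simp

/-- number of prime factors with multiplicity of a number with large prime factors -/
lemma sum_fact_le {j n i : ℕ} (hn : Rg j n) (hni : n ≤ 2 ^ i) :
    (j / 10) * ∑ p ∈ n.primeFactors, n.factorization p ≤ i := by
  have h1 : (2 : ℕ) ^ ((j / 10) * ∑ p ∈ n.primeFactors, n.factorization p) ≤ 2 ^ i := by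
    refine le_trans ?_ hni
    calc (2 : ℕ) ^ ((j / 10) * ∑ p ∈ n.primeFactors, n.factorization p)
        = ∏ p ∈ n.primeFactors, (2 ^ (j / 10)) ^ (n.factorization p) := by
          rw [pow_mul, prod_pow_eq_pow_sum]
      _ ≤ ∏ p ∈ n.primeFactors, p ^ (n.factorization p) := by
          refine prod_le_prod' (fun p hp => ?_)
          exact Nat.pow_le_pow_left (hn.2 p (Nat.prime_of_mem_primeFactors hp) (Nat.dvd_of_mem_primeFactors hp)) _
      _ = n := by
          have := Nat.prod_factorization_pow_eq_self hn.1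
          rw [Finsupp.prod] at this
          exact this
  exact (Nat.pow_le_pow_iff_right (by norm_num)).1 h1

lemma card_pf_le_sum {n : ℕ} : n.primeFactors.card ≤ ∑ p ∈ n.primeFactors, n.factorization p := by
  rw [card_eq_sum_ones]
  refine sum_le_sum (fun p hp => ?_)
  exact (Nat.prime_of_mem_primeFactors hp).factorization_pos_of_dvd (Nat.mem_primeFactors.1 hp).2.2
    (Nat.dvd_of_mem_primeFactors hp)

lemma card_div_le {n : ℕ} (hn : n ≠ 0) : n.divisors.card ≤ 2 ^ (∑ p ∈ n.primeFactors, n.factorization p) := by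
  rw [Nat.card_divisors hn, ← prod_pow_eq_pow_sum]
  refine prod_le_prod' (fun p _ => ?_)
  exact Nat.lt_two_pow_self

/-- `ZZ` as a sum over a filtered set, the condition being given in any form -/
lemma ZZ_eq {ι : Type} (A : Finset ι) (c : ι → ℝ) (S : ι → Finset ℕ) (V : ℕ → Bool) (T : Finset ι)
    (hT : ∀ a, a ∈ T ↔ a ∈ A ∧ ∀ p ∈ S a, V p = true) : ZZ A c S V = ∑ a ∈ T, c a := by
  have h : T = A.filter (fun a => ∀ p ∈ S a, V p = true) := by
    ext a
    rw [hT, mem_filter]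
  rw [h, sum_filter]
  unfold ZZ
  exact sum_congr rfl (fun a _ => if_congr Iff.rfl rfl rfl)

end Pool.Agent.Q265.KZ
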