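import Pool.Agent.Q265.KZ.Basic

/-!
# Project KZ, job XM: the mass of the host primes
-/

set_option autoImplicit false

namespace Pool.Agent.Q265.KZ

open Finset Filter Topology MeasureTheory
open scoped Classical
open Pool.Agent.W76.MO (hh nc cell lp Rough)
open Pool.Agent.Q18.KZ

lemma cell_card (δ : ℝ) (i k : ℕ) : (cell δ i k).card = hh δ i := by
  unfold cell
  rw [Nat.card_Ioc, add_mul, one_mul]
  omega

lemma hh_pos (δ : ℝ) (i : ℕ) : 0 < hh δ i := by unfold hh; positivity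

lemma ActD_card (δ : ℝ) (i : ℕ) (B : Finset ℕ) : (ActD δ i B).card ≤ B.card * hh δ i := by
  unfold ActD
  refine card_biUnion_le.trans ?_
  rw [sum_congr rfl (fun k _ => cell_card δ i k), sum_const, smul_eq_mul]

/-- Markov's inequality for the sum over `Vn V m`, in terms of `S_MOM` -/
lemma markov (hM : S_MOM) {j : ℕ} {P : Measure (ℕ → Bool)} (hP : IsRand (rho j) P) {ι : Type} (A : Finset ι)
    (c : ι → ℝ) (S : ι → Finset ℕ) (hc : ∀ a ∈ A, 0 ≤ c a) {B t : ℝ} (hB : ∑ a ∈ A, c a * ∏ p ∈ S a, rho j p ≤ B)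
    (ht : 0 < t) : P {ω | t < ZZ A c S ω} ≤ ENNReal.ofReal (B / t) := by
  have hB0 : 0 ≤ B := le_trans (sum_nonneg (fun a ha => mul_nonneg (hc a ha)
    (prod_nonneg fun p _ => rho_nonneg j p))) hB
  have h := (hM (rho j) P (rho01 j) hP ι A c S 1 B hc hB0 ?_).2 t ht
  · rwa [pow_one] at h
  · rintro L ⟨T, _, hT, rfl⟩
    rw [Nat.lt_one_iff, card_eq_zero] at hT
    rw [hT, biUnion_empty]
    unfold Psi
    simpa using hB

section
variable (E : KEnv)

/-- expectation of the sum of the event (M), for one `i` -/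
lemma mean_le (hFF : S_FF) {j i : ℕ} (hi : E.i₁ ≤ i) :
    ∑ u ∈ E.Fam i, E.TT i u.1 * ∏ p ∈ u.1.primeFactors, rho j p ≤ 4 * (2 : ℝ) ^ (-(0.0014 : ℝ) * i) := by
  have hi1 : 1000 ≤ i := E.hi₁.trans hi
  have hi0 : (0 : ℝ) < i := by exact_mod_cast (by omega : 0 < i)
  have hi1' : (1 : ℝ) ≤ i := by exact_mod_cast (by omega : 1 ≤ i)
  obtain ⟨hF1, hF2⟩ := hFF E i hi
  have hh0 : (0 : ℝ) < hh E.δ i := by exact_mod_cast hh_pos E.δ i
  have hww0 : 0 < ww E.δ i := by unfold ww; positivity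
  -- the weight
  have hww : ww E.δ i * i ≤ (2 : ℝ) ^ (-(1 / 2 : ℝ) * i) := by
    unfold ww
    have h1 : (2 : ℝ) ^ (-(1 / 2 + E.δ / 2) * (i : ℝ)) ≤ (2 : ℝ) ^ (-(1 / 2 : ℝ) * i) := by
      apply Real.rpow_le_rpow_of_exponent_le (by norm_num)
      have := E.hδ
      nlinarith
    have h2 : (i : ℝ) ≤ (i : ℝ) ^ 40 := le_self_pow₀ hi1' (by norm_num)
    rw [div_mul_eq_mul_div, div_le_iff₀ (by positivity)]
    exact mul_le_mul h1 h2 hi0.le (by positivity)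
  -- one term
  have hterm : ∀ m : ℕ, Squarefree m → E.TT i m * ∏ p ∈ m.primeFactors, rho j p ≤
      ww E.δ i * i / hh E.δ i * (m : ℝ) ^ (1 / 2 + dd) := by
    intro m hm
    have hm0 : (0 : ℝ) < m := by exact_mod_cast hm.ne_zero.bot_lt
    have h1 := prod_rho_le j m.primeFactors
    rw [Nat.prod_primeFactors_of_squarefree hm] at h1
    unfold KEnv.TT
    calc ww E.δ i * (m : ℝ) ^ (1 + dd - d1) * i / hh E.δ i * ∏ p ∈ m.primeFactors, rho j p
        ≤ ww E.δ i * (m : ℝ) ^ (1 + dd - d1) * i / hh E.δ i * (m : ℝ) ^ (-(1 / 2 : ℝ) + d1) :=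
          mul_le_mul_of_nonneg_left h1 (by positivity)
      _ = ww E.δ i * i / hh E.δ i * ((m : ℝ) ^ (1 + dd - d1) * (m : ℝ) ^ (-(1 / 2 : ℝ) + d1)) := by ring
      _ = ww E.δ i * i / hh E.δ i * (m : ℝ) ^ (1 / 2 + dd) := by
          rw [← Real.rpow_add hm0]
          congr 2
          ring
  have hdd : (0 : ℝ) ≤ 1 / 2 + dd := by unfold dd; norm_num
  have hTT : ∀ m : ℕ, 0 ≤ E.TT i m * ∏ p ∈ m.primeFactors, rho j p := by
    intro m
    apply mul_nonneg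
    · unfold KEnv.TT; positivity
    · exact prod_nonneg (fun p _ => rho_nonneg j p)
  -- first family
  have hs1 : ∑ u ∈ E.Fam1 i, E.TT i u.1 * ∏ p ∈ u.1.primeFactors, rho j p ≤ 2 * (2 : ℝ) ^ (-(0.0014 : ℝ) * i) := by
    have hcard : ((E.Fam1 i).card : ℝ) ≤ 2 * (2 : ℝ) ^ (0.306 * (i : ℝ)) * hh E.δ i := by
      have h1 : (E.Fam1 i).card ≤ (E.Act1 i).card := by
        refine card_le_card_of_injOn (fun u => u.1 * u.2) (fun u hu => (hF1 u hu).2.2.2.2.2.2.2) ?_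
        intro u hu w hw huw
        have hu' := hF1 u hu
        have hw' := hF1 w hw
        simp only at huw
        have h2 : u.1 ∣ w.1 * w.2 := huw ▸ dvd_mul_right _ _
        have h3 : u.1 = w.1 := by
          rcases (hu'.1.dvd_mul).1 h2 with h | h
          · exact (Nat.prime_dvd_prime_iff_eq hu'.1 hw'.1).1 h
          · exfalso
            have h4 := (Nat.prime_dvd_prime_iff_eq hu'.1 hw'.2.1).1 h
            have h5 : u.2 = w.1 := by
              rw [h4, mul_comm] at huw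
              exact Nat.eq_of_mul_eq_mul_right hw'.2.1.pos huw
            have h6 := hu'.2.2.2.1
            have h7 := hw'.2.2.2.1
            omega
        rw [h3] at huw
        exact Prod.ext h3 (Nat.eq_of_mul_eq_mul_left hw'.1.pos huw)
      have h2 : (E.Act1 i).card ≤ (E.B1 i ∪ (E.B1 i).image (E.pi i)).card * hh E.δ i := ActD_card _ _ _
      have h3 : (E.B1 i ∪ (E.B1 i).image (E.pi i)).card ≤ 2 * (E.B1 i).card := by
        refine (card_union_le _ _).trans ?_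
        have := card_image_le (s := E.B1 i) (f := E.pi i)
        omega
      have h4 := E.card1 i hi
      calc ((E.Fam1 i).card : ℝ) ≤ (((E.B1 i ∪ (E.B1 i).image (E.pi i)).card * hh E.δ i : ℕ) : ℝ) := by
            exact_mod_cast h1.trans h2
        _ ≤ ((2 * (E.B1 i).card * hh E.δ i : ℕ) : ℝ) := by
            exact_mod_cast Nat.mul_le_mul_right _ h3
        _ = 2 * ((E.B1 i).card : ℝ) * hh E.δ i := by push_cast; ring
        _ ≤ 2 * (2 : ℝ) ^ (0.306 * (i : ℝ)) * hh E.δ i := by gcongr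
    have hone : ∀ u ∈ E.Fam1 i, E.TT i u.1 * ∏ p ∈ u.1.primeFactors, rho j p ≤
        ww E.δ i * i / hh E.δ i * (2 : ℝ) ^ (0.385 * (i : ℝ) * (1 / 2 + dd)) := by
      intro u hu
      have hu' := hF1 u hu
      refine (hterm u.1 hu'.1.squarefree).trans ?_
      have h1 : (u.1 : ℝ) ≤ (2 : ℝ) ^ (0.385 * (i : ℝ)) := by
        have := hu'.2.2.1
        unfold VR at this
        exact (mem_filter.1 this).2.2.2
      have h2 : (u.1 : ℝ) ^ (1 / 2 + dd) ≤ (2 : ℝ) ^ (0.385 * (i : ℝ) * (1 / 2 + dd)) := by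
        rw [Real.rpow_mul (by norm_num)]
        exact Real.rpow_le_rpow (Nat.cast_nonneg _) h1 hdd
      gcongr
    calc ∑ u ∈ E.Fam1 i, E.TT i u.1 * ∏ p ∈ u.1.primeFactors, rho j p
        ≤ ∑ u ∈ E.Fam1 i, ww E.δ i * i / hh E.δ i * (2 : ℝ) ^ (0.385 * (i : ℝ) * (1 / 2 + dd)) := sum_le_sum hone
      _ = ((E.Fam1 i).card : ℝ) * (ww E.δ i * i / hh E.δ i * (2 : ℝ) ^ (0.385 * (i : ℝ) * (1 / 2 + dd))) := by
          rw [sum_const, nsmul_eq_mul]
      _ ≤ (2 * (2 : ℝ) ^ (0.306 * (i : ℝ)) * hh E.δ i) *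
          (ww E.δ i * i / hh E.δ i * (2 : ℝ) ^ (0.385 * (i : ℝ) * (1 / 2 + dd))) := by gcongr
      _ = 2 * (2 : ℝ) ^ (0.306 * (i : ℝ)) * (ww E.δ i * i) * (2 : ℝ) ^ (0.385 * (i : ℝ) * (1 / 2 + dd)) := by
          field_simp
      _ ≤ 2 * (2 : ℝ) ^ (0.306 * (i : ℝ)) * (2 : ℝ) ^ (-(1 / 2 : ℝ) * i) * (2 : ℝ) ^ (0.385 * (i : ℝ) * (1 / 2 + dd)) := by
          gcongr
      _ = 2 * (2 : ℝ) ^ (0.306 * (i : ℝ) + -(1 / 2 : ℝ) * i + 0.385 * (i : ℝ) * (1 / 2 + dd)) := by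
          rw [Real.rpow_add (by norm_num), Real.rpow_add (by norm_num)]
          ring
      _ ≤ 2 * (2 : ℝ) ^ (-(0.0014 : ℝ) * i) := by
          have : 0.306 * (i : ℝ) + -(1 / 2 : ℝ) * i + 0.385 * (i : ℝ) * (1 / 2 + dd) ≤ -(0.0014 : ℝ) * i := by
            unfold dd
            linarith
          gcongr
          norm_num
  -- second family
  have hs2 : ∑ u ∈ E.Fam2 i, E.TT i u.1 * ∏ p ∈ u.1.primeFactors, rho j p ≤ 2 * (2 : ℝ) ^ (-(0.0014 : ℝ) * i) := by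
    have hcard : ((E.Fam2 i).card : ℝ) ≤ (2 : ℝ) ^ (0.1165 * (i : ℝ)) * hh E.δ i := by
      have h1 : (E.Fam2 i).card ≤ (E.Act2 i).card := by
        refine card_le_card_of_injOn (fun u => u.1 * u.2) (fun u hu => (hF2 u hu).2.2.2.2.2.2.2.2.2.2) ?_
        intro u hu w hw huw
        simp only at huw
        have hu1 : lp (u.1 * u.2) = u.2 := by
          have h : u ∈ E.Fam2 i := hu
          unfold KEnv.Fam2 at h
          exact (mem_filter.1 h).2.2.1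
        have hw1 : lp (w.1 * w.2) = w.2 := by
          have h : w ∈ E.Fam2 i := hw
          unfold KEnv.Fam2 at h
          exact (mem_filter.1 h).2.2.1
        have h3 : u.2 = w.2 := by rw [← hu1, ← hw1, huw]
        rw [h3] at huw
        exact Prod.ext (Nat.eq_of_mul_eq_mul_right (hF2 w hw).2.2.1.pos huw) h3
      have h2 : (E.Act2 i).card ≤ (E.B2 i).card * hh E.δ i := ActD_card _ _ _
      have h4 := E.card2 i hi
      calc ((E.Fam2 i).card : ℝ) ≤ (((E.B2 i).card * hh E.δ i : ℕ) : ℝ) := by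
            exact_mod_cast h1.trans h2
        _ = ((E.B2 i).card : ℝ) * hh E.δ i := by push_cast; ring
        _ ≤ (2 : ℝ) ^ (0.1165 * (i : ℝ)) * hh E.δ i := by gcongr
    have hone : ∀ u ∈ E.Fam2 i, E.TT i u.1 * ∏ p ∈ u.1.primeFactors, rho j p ≤
        ww E.δ i * i / hh E.δ i * (2 : ℝ) ^ (0.75 * ((i : ℝ) + 1) * (1 / 2 + dd)) := by
      intro u hu
      have hu' := hF2 u hu
      refine (hterm u.1 hu'.1).trans ?_
      have h1 : (u.1 : ℝ) ≤ (2 : ℝ) ^ (0.75 * ((i : ℝ) + 1)) := hu'.2.2.2.2.2.2.1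
      have h2 : (u.1 : ℝ) ^ (1 / 2 + dd) ≤ (2 : ℝ) ^ (0.75 * ((i : ℝ) + 1) * (1 / 2 + dd)) := by
        rw [Real.rpow_mul (by norm_num)]
        exact Real.rpow_le_rpow (Nat.cast_nonneg _) h1 hdd
      gcongr
    calc ∑ u ∈ E.Fam2 i, E.TT i u.1 * ∏ p ∈ u.1.primeFactors, rho j p
        ≤ ∑ u ∈ E.Fam2 i, ww E.δ i * i / hh E.δ i * (2 : ℝ) ^ (0.75 * ((i : ℝ) + 1) * (1 / 2 + dd)) := sum_le_sum hone
      _ = ((E.Fam2 i).card : ℝ) * (ww E.δ i * i / hh E.δ i * (2 : ℝ) ^ (0.75 * ((i : ℝ) + 1) * (1 / 2 + dd))) := by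
          rw [sum_const, nsmul_eq_mul]
      _ ≤ ((2 : ℝ) ^ (0.1165 * (i : ℝ)) * hh E.δ i) *
          (ww E.δ i * i / hh E.δ i * (2 : ℝ) ^ (0.75 * ((i : ℝ) + 1) * (1 / 2 + dd))) := by gcongr
      _ = (2 : ℝ) ^ (0.1165 * (i : ℝ)) * (ww E.δ i * i) * (2 : ℝ) ^ (0.75 * ((i : ℝ) + 1) * (1 / 2 + dd)) := by
          field_simp
      _ ≤ (2 : ℝ) ^ (0.1165 * (i : ℝ)) * (2 : ℝ) ^ (-(1 / 2 : ℝ) * i) * (2 : ℝ) ^ (0.75 * ((i : ℝ) + 1) * (1 / 2 + dd)) := by
          gcongr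
      _ = (2 : ℝ) ^ (0.1165 * (i : ℝ) + -(1 / 2 : ℝ) * i + 0.75 * ((i : ℝ) + 1) * (1 / 2 + dd)) := by
          rw [Real.rpow_add (by norm_num), Real.rpow_add (by norm_num)]
      _ ≤ (2 : ℝ) ^ (1 + -(0.0014 : ℝ) * i) := by
          have : 0.1165 * (i : ℝ) + -(1 / 2 : ℝ) * i + 0.75 * ((i : ℝ) + 1) * (1 / 2 + dd) ≤ 1 + -(0.0014 : ℝ) * i := by
            unfold dd
            linarith
          exact Real.rpow_le_rpow_of_exponent_le (by norm_num) this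
      _ = 2 * (2 : ℝ) ^ (-(0.0014 : ℝ) * i) := by
          rw [Real.rpow_add (by norm_num), Real.rpow_one]
  have hunion : ∑ u ∈ E.Fam i, E.TT i u.1 * ∏ p ∈ u.1.primeFactors, rho j p ≤
      ∑ u ∈ E.Fam1 i, E.TT i u.1 * ∏ p ∈ u.1.primeFactors, rho j p +
      ∑ u ∈ E.Fam2 i, E.TT i u.1 * ∏ p ∈ u.1.primeFactors, rho j p := by
    unfold KEnv.Fam
    rw [← sum_union_inter]
    exact le_add_of_nonneg_right (sum_nonneg fun u _ => hTT u.1)
  linarith

/-- **KZ-XM** -/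
theorem t_XM (hM : S_MOM) (hFF : S_FF) : S_XM := by
  intro E
  have hsum : Summable (fun i : ℕ => 4 * ((2 : ℝ) ^ (-(1 / 1000 : ℝ))) ^ i) := by
    apply Summable.mul_left
    apply summable_geometric_of_lt_one (by positivity)
    exact Real.rpow_lt_one_of_one_lt_of_neg (by norm_num) (by norm_num)
  obtain ⟨J, hJ⟩ := tail_event hsum (fun i => by positivity)
  refine ⟨max J E.i₁, fun j hj P hP => ?_⟩
  have hset : {V | ¬ EvM E j V} ⊆ {V | ∃ i, j ≤ i ∧ V ∈ {V : ℕ → Bool | (2 : ℝ) ^ (-((i : ℝ) / 4000)) <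
      ZZ (E.Fam i) (fun u => E.TT i u.1) (fun u => u.1.primeFactors) V}} := by
    intro V hV
    simp only [EvM, Set.mem_ofPred_eq] at hV
    push Not at hV
    obtain ⟨i, hi, h⟩ := hV
    refine ⟨i, hi, ?_⟩
    rw [Set.mem_ofPred_eq]
    refine lt_of_lt_of_eq h (ZZ_eq _ _ _ _ _ ?_).symm
    intro u
    rw [mem_filter]
    rfl
  refine (measure_mono hset).trans (hJ j ((le_max_left _ _).trans hj) P _ ?_)
  intro i hi
  have hi1 : E.i₁ ≤ i := (le_max_right _ _).trans (hj.trans hi)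
  have ht : (0 : ℝ) < (2 : ℝ) ^ (-((i : ℝ) / 4000)) := by positivity
  have h := markov hM hP (E.Fam i) (fun u => E.TT i u.1) (fun u => u.1.primeFactors) ?_
    (mean_le E hFF (j := j) hi1) ht
  · refine h.trans (ENNReal.ofReal_le_ofReal ?_)
    rw [div_le_iff₀ ht, ← Real.rpow_natCast, ← Real.rpow_mul (by norm_num), mul_assoc, ← Real.rpow_add (by norm_num)]
    have : -(0.0014 : ℝ) * i ≤ -(1 / 1000 : ℝ) * i + -((i : ℝ) / 4000) := by
      have : (0 : ℝ) ≤ i := Nat.cast_nonneg i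
      linarith
    gcongr
    norm_num
  · intro u _
    show 0 ≤ E.TT i u.1
    unfold KEnv.TT ww
    positivity

end

end Pool.Agent.Q265.KZ
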