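import Pool.Agent.Q265.KZ.Basic

/-!
# Project KZ, jobs XR and XL: numbers with all prime factors in `V` in short intervals
-/

set_option autoImplicit false

namespace Pool.Agent.Q265.KZ

open Finset Filter Topology MeasureTheory
open scoped Classical
open Pool.Agent.W76.MO (hh nc cell lp Rough)
open Pool.Agent.Q18.KZ

/-- the index set: pairs `(n, l)`, `n ∈ (a, b]` with large prime factors, `l ∣ n`, `l ≥ x` -/
noncomputable def AR (j a b : ℕ) (x : ℝ) : Finset (Σ _ : ℕ, ℕ) :=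
  ((Ioc a b).filter (Rg j)).sigma (fun n => n.divisors.filter (fun l : ℕ => x ≤ (l : ℝ)))

noncomputable def cR (u : Σ _ : ℕ, ℕ) : ℝ := (u.2 : ℝ) ^ (-(1 / 2 : ℝ) - dd) * (((u.1 / u.2 : ℕ) : ℝ))⁻¹

def SR (u : Σ _ : ℕ, ℕ) : Finset ℕ := u.2.primeFactors

lemma ZZ_AR (j a b : ℕ) (x : ℝ) (V : ℕ → Bool) :
    ZZ (AR j a b x) cR SR V = ∑ n ∈ (Ioc a b).filter (Rg j), SVe V x n := by
  unfold ZZ AR
  rw [sum_sigma]
  refine sum_congr rfl (fun n _ => ?_)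
  unfold SVe
  have h : n.divisors.filter (fun l : ℕ => Vn V l ∧ x ≤ (l : ℝ)) =
      (n.divisors.filter (fun l : ℕ => x ≤ (l : ℝ))).filter (fun l => ∀ p ∈ l.primeFactors, V p = true) := by
    ext l
    rw [mem_filter, mem_filter, mem_filter]
    unfold Vn
    tauto
  rw [h]
  exact (sum_congr rfl (fun a _ => if_congr Iff.rfl rfl rfl)).trans (sum_filter _ _).symm

lemma real_fact_le {j n i : ℕ} (hj : 20 ≤ j) (hn : Rg j n) (hni : n ≤ 2 ^ i) :
    ((∑ p ∈ n.primeFactors, n.factorization p : ℕ) : ℝ) * j ≤ 20 * i := by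
  have h1 := sum_fact_le hn hni
  have h2 : ((j / 10 : ℕ) : ℝ) * ((∑ p ∈ n.primeFactors, n.factorization p : ℕ) : ℝ) ≤ i := by exact_mod_cast h1
  have h3 : (j : ℝ) ≤ 20 * ((j / 10 : ℕ) : ℝ) := by
    have : j ≤ 20 * (j / 10) := by omega
    exact_mod_cast this
  have h4 : (0 : ℝ) ≤ ((∑ p ∈ n.primeFactors, n.factorization p : ℕ) : ℝ) := Nat.cast_nonneg _
  nlinarith

/-- the estimate of `Psi` -/
lemma Psi_AR (hPW : S_PW) {ε : ℝ} (hε : 0 < ε) {j i a b : ℕ} (hj : 20 ≤ j) (hjε : 240 / ε ≤ j) (hji : j ≤ 2 * i)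
    (ha : 2 ^ i ≤ a) (hb : b ≤ 2 ^ (i + 2)) (x W : ℝ)
    (hXW : ∀ l : ℕ, 1 ≤ l → x ≤ l → (l : ℝ) ^ (-(dd - d1)) ≤ W) (hW : 0 ≤ W) (L : Finset ℕ) :
    Psi (rho j) (AR j a b x) cR SR L ≤ (2 : ℝ) ^ (ε / 4 * i) * W / 2 ^ i *
      ∑ n ∈ (Ioc a b).filter (Rg j), (QL L n) ^ (1 / 2 - d1) := by
  unfold Psi AR
  rw [sum_sigma, mul_sum]
  refine sum_le_sum (fun n hn => ?_)
  rw [mem_filter, mem_Ioc] at hn
  obtain ⟨⟨hn1, hn2⟩, hn3⟩ := hn
  have hi1 : 1 ≤ i := by omega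
  have hi0 : (0 : ℝ) < i := by exact_mod_cast hi1
  have hn0 : 0 < n := by omega
  have hnr : (0 : ℝ) < n := by exact_mod_cast hn0
  have hQ : 0 ≤ QL L n := by
    unfold QL
    refine prod_nonneg (fun p _ => ?_)
    split_ifs <;> positivity
  have hQ' : 0 ≤ (QL L n) ^ (1 / 2 - d1) := Real.rpow_nonneg hQ _
  have hninv : (n : ℝ)⁻¹ ≤ 1 / 2 ^ i := by
    rw [← one_div]
    apply one_div_le_one_div_of_le (by positivity)
    have : 2 ^ i ≤ n := by omega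
    exact_mod_cast this
  have hterm : ∀ l ∈ n.divisors.filter (fun l : ℕ => x ≤ (l : ℝ)),
      cR ⟨n, l⟩ * ∏ p ∈ SR ⟨n, l⟩ \ L, rho j p ≤ 1 / 2 ^ i * W * (QL L n) ^ (1 / 2 - d1) := by
    intro l hl
    rw [mem_filter, Nat.mem_divisors] at hl
    have h1 := hPW j n l L hn3 hl.1.1
    refine h1.trans ?_
    have hl0 : 1 ≤ l := Nat.pos_of_dvd_of_pos hl.1.1 hn0
    have h2 := hXW l hl0 hl.2
    have h3 : (0 : ℝ) ≤ (l : ℝ) ^ (-(dd - d1)) := by positivity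
    gcongr
  have hcard : ((n.divisors.filter (fun l : ℕ => x ≤ (l : ℝ))).card : ℝ) ≤ (2 : ℝ) ^ (ε / 4 * i) := by
    have h1 : (n.divisors.filter (fun l : ℕ => x ≤ (l : ℝ))).card ≤
        2 ^ (∑ p ∈ n.primeFactors, n.factorization p) :=
      (card_filter_le _ _).trans (card_div_le hn0.ne')
    have h2 := real_fact_le hj hn3 (hn2.trans hb)
    have h3 : ((∑ p ∈ n.primeFactors, n.factorization p : ℕ) : ℝ) ≤ ε / 4 * i := by
      have hj0 : (0 : ℝ) < j := by exact_mod_cast (by omega : 0 < j)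
      rw [div_le_iff₀ hε] at hjε
      push_cast at h2 ⊢
      have h5 : (1 : ℝ) ≤ i := by exact_mod_cast hi1
      by_contra hcon
      push Not at hcon
      have h6 : (ε / 4 * i) * j < 20 * (i + 2) := lt_of_lt_of_le (mul_lt_mul_of_pos_right hcon hj0) h2
      have h7 : 60 * (i : ℝ) ≤ ε / 4 * i * j := by
        have : 240 * (i : ℝ) ≤ (j * ε) * i := mul_le_mul_of_nonneg_right hjε hi0.le
        nlinarith
      linarith
    calc ((n.divisors.filter (fun l : ℕ => x ≤ (l : ℝ))).card : ℝ) ≤ ((2 ^ (∑ p ∈ n.primeFactors, n.factorization p) : ℕ) : ℝ) := by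
          exact_mod_cast h1
      _ = (2 : ℝ) ^ ((∑ p ∈ n.primeFactors, n.factorization p : ℕ) : ℝ) := by
          rw [Real.rpow_natCast]; push_cast; rfl
      _ ≤ (2 : ℝ) ^ (ε / 4 * i) := Real.rpow_le_rpow_of_exponent_le (by norm_num) h3
  calc ∑ l ∈ n.divisors.filter (fun l : ℕ => x ≤ (l : ℝ)), cR ⟨n, l⟩ * ∏ p ∈ SR ⟨n, l⟩ \ L, rho j p
      ≤ ∑ l ∈ n.divisors.filter (fun l : ℕ => x ≤ (l : ℝ)), 1 / 2 ^ i * W * (QL L n) ^ (1 / 2 - d1) := sum_le_sum hterm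
    _ = ((n.divisors.filter (fun l : ℕ => x ≤ (l : ℝ))).card : ℝ) * (1 / 2 ^ i * W * (QL L n) ^ (1 / 2 - d1)) := by
        rw [sum_const, nsmul_eq_mul]
    _ ≤ (2 : ℝ) ^ (ε / 4 * i) * (1 / 2 ^ i * W * (QL L n) ^ (1 / 2 - d1)) := by gcongr
    _ = (2 : ℝ) ^ (ε / 4 * i) * W / 2 ^ i * (QL L n) ^ (1 / 2 - d1) := by ring

/-- the common statement -/
theorem gen_vr (hTB : S_TB) (hPW : S_PW) (hRCS : S_RCS) (X W : ℕ → ℝ) (hW0 : ∀ i, 0 ≤ W i) (hW1 : ∀ i, W i ≤ 1)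
    (hXW : ∀ i l : ℕ, 1 ≤ l → X i ≤ l → (l : ℝ) ^ (-(dd - d1)) ≤ W i) :
    ∃ J : ℕ, ∀ j : ℕ, J ≤ j → ∀ P : Measure (ℕ → Bool), IsRand (rho j) P →
      P {V | ¬ ∀ i a b : ℕ, j ≤ 2 * i → 2 ^ i ≤ a → a ≤ b → b ≤ 2 ^ (i + 2) → (b : ℝ) - a ≤ (2 : ℝ) ^ ((i : ℝ) / 2) →
        ∑ n ∈ (Ioc a b).filter (Rg j), SVe V (X i) n ≤ (2 : ℝ) ^ (e0 * i) * (((b : ℝ) - a) / 2 ^ i * W i +
          (2 : ℝ) ^ (-(1 / 2 + 1 / 10 ^ 5) * (i : ℝ)))} ≤ 1 / 20 := by
  have he0 := e0_pos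
  obtain ⟨ε, hε⟩ : ∃ ε : ℝ, ε = e0 / 2 := ⟨_, rfl⟩
  have hε0 : 0 < ε := by rw [hε]; linarith
  obtain ⟨k, hk⟩ : ∃ k : ℕ, 40 * (10 / ε + 1) ≤ k := exists_nat_ge _
  obtain ⟨J₁, hJ₁⟩ := hRCS (ε / 4) d1 k (by positivity) d1_pos (by have := d1_lt; linarith)
  obtain ⟨J₂, hJ₂⟩ : ∃ J₂ : ℕ, 240 / ε ≤ J₂ := exists_nat_ge _
  refine ⟨max (max J₁ J₂) 20, fun j hj P hP => ?_⟩
  have hjJ₁ : J₁ ≤ j := ((le_max_left _ _).trans (le_max_left _ _)).trans hj
  have hjJ₂ : J₂ ≤ j := ((le_max_right _ _).trans (le_max_left _ _)).trans hj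
  have hj20 : 20 ≤ j := (le_max_right _ _).trans hj
  have hjε : 240 / ε ≤ j := hJ₂.trans (by exact_mod_cast hjJ₂)
  have hj0 : (0 : ℝ) < j := by exact_mod_cast (by omega : 0 < j)
  -- data for TB
  let R : ℕ → Finset (ℕ × ℕ × ℕ) := fun i => (({i} : Finset ℕ) ×ˢ (Icc 1 (2 ^ (i + 2)) ×ˢ Icc 1 (2 ^ (i + 2)))).filter
    (fun r => 2 ^ i ≤ r.2.1 ∧ r.2.1 ≤ r.2.2 ∧ (r.2.2 : ℝ) - r.2.1 ≤ (2 : ℝ) ^ ((i : ℝ) / 2))
  let t : ℕ × ℕ × ℕ → ℝ := fun r => (2 : ℝ) ^ (e0 * r.1) * (((r.2.2 : ℝ) - r.2.1) / 2 ^ r.1 * W r.1 +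
          (2 : ℝ) ^ (-(1 / 2 + 1 / 10 ^ 5) * (r.1 : ℝ)))
  have hTB' := hTB ε hε0 (rho j) P (rho01 j) hP (Σ _ : ℕ, ℕ) (ℕ × ℕ × ℕ) R (fun r => AR j r.2.1 r.2.2 (X r.1))
    (fun _ => cR) (fun _ => SR) t ((j + 1) / 2) (by omega) ?_ ?_
  · refine (measure_mono ?_).trans hTB'
    intro V hV
    rw [Set.mem_ofPred_eq] at hV
    push Not at hV
    obtain ⟨i, a, b, hji, ha, hab, hb, hlen, h⟩ := hV
    refine ⟨i, by omega, (i, a, b), ?_, ?_⟩
    · simp only [R, mem_filter, mem_product, mem_singleton, mem_Icc, true_and]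
      have : 0 < 2 ^ i := by positivity
      exact ⟨⟨⟨by omega, by omega⟩, ⟨by omega, hb⟩⟩, ha, hab, hlen⟩
    · show t (i, a, b) < ZZ (AR j a b (X i)) cR SR V
      rw [ZZ_AR]
      exact h
  · intro i hi
    refine (card_filter_le _ _).trans ?_
    rw [card_product, card_product, card_singleton, Nat.card_Icc, one_mul, Nat.add_sub_cancel, ← pow_add]
    apply Nat.pow_le_pow_right (by norm_num)
    omega
  · intro i hi r hr
    simp only [R, mem_filter, mem_product, mem_singleton, mem_Icc] at hr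
    obtain ⟨⟨hr1, ⟨hr2, hr3⟩, hr4, hr5⟩, hr6, hr7, hr8⟩ := hr
    obtain ⟨i', a, b⟩ := r
    simp only at hr1 hr2 hr3 hr4 hr5 hr6 hr7 hr8
    subst hr1
    have hji : j ≤ 2 * i' := by omega
    have hba : (0 : ℝ) ≤ (b : ℝ) - a := by
      have : (a : ℝ) ≤ b := by exact_mod_cast hr7
      linarith
    have hW0' := hW0 i'
    refine ⟨?_, ?_, ?_⟩
    · simp only [t]
      positivity
    · intro u _
      unfold cR
      positivity
    · rintro L ⟨T, hT, hTc, hL⟩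
      show Psi (rho j) (AR j a b (X i')) cR SR L ≤ _
      have hmem : ∀ u ∈ T, Rg j u.1 ∧ u.1 ≤ 2 ^ (i' + 2) ∧ u.2 ∣ u.1 := by
        intro u hu
        have h := hT hu
        simp only [AR, mem_sigma, mem_filter, mem_Ioc, Nat.mem_divisors] at h
        exact ⟨h.1.2, h.1.1.2.trans hr5, h.2.1.1⟩
      have hLp : ∀ p ∈ L, p.Prime ∧ 2 ^ (j / 10) ≤ p := by
        intro p hp
        rw [hL, mem_biUnion] at hp
        obtain ⟨u, hu, hp⟩ := hp
        have h := hmem u hu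
        unfold SR at hp
        have hpp := Nat.prime_of_mem_primeFactors hp
        exact ⟨hpp, h.1.2 p hpp ((Nat.dvd_of_mem_primeFactors hp).trans h.2.2)⟩
      have hLc : (L.card : ℝ) * j ≤ k * (i' + 1) := by
        have h1 : (L.card : ℝ) ≤ ∑ u ∈ T, ((SR u).card : ℝ) := by
          rw [hL]
          exact_mod_cast card_biUnion_le
        have h2 : ∀ u ∈ T, ((SR u).card : ℝ) * j ≤ 20 * (i' + 2) := by
          intro u hu
          have h := hmem u hu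
          have h3 := real_fact_le hj20 h.1 h.2.1
          have h4 : (SR u).card ≤ ∑ p ∈ u.1.primeFactors, u.1.factorization p := by
            unfold SR
            exact (card_le_card (Nat.primeFactors_mono h.2.2 h.1.1)).trans card_pf_le_sum
          have h5 : ((SR u).card : ℝ) ≤ ((∑ p ∈ u.1.primeFactors, u.1.factorization p : ℕ) : ℝ) := by exact_mod_cast h4
          push_cast at h3
          calc ((SR u).card : ℝ) * j ≤ ((∑ p ∈ u.1.primeFactors, u.1.factorization p : ℕ) : ℝ) * j := by gcongr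
            _ ≤ 20 * (i' + 2) := by push_cast; exact h3
        have hi0 : (0 : ℝ) ≤ i' := Nat.cast_nonneg _
        calc (L.card : ℝ) * j ≤ (∑ u ∈ T, ((SR u).card : ℝ)) * j := by gcongr
          _ = ∑ u ∈ T, ((SR u).card : ℝ) * j := by rw [sum_mul]
          _ ≤ ∑ u ∈ T, 20 * ((i' : ℝ) + 2) := sum_le_sum h2
          _ = T.card * (20 * ((i' : ℝ) + 2)) := by rw [sum_const, nsmul_eq_mul]
          _ ≤ (10 / ε + 1) * (20 * ((i' : ℝ) + 2)) := by gcongr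
          _ ≤ 40 * (10 / ε + 1) * (i' + 1) := by
              have : 0 ≤ (10 / ε + 1) := by positivity
              nlinarith
          _ ≤ k * (i' + 1) := by gcongr
      have h1 := Psi_AR hPW hε0 hj20 hjε hji hr6 hr5 (X i') (W i') (hXW i') (hW0 i') L
      have h2 := hJ₁ j hjJ₁ i' a b (by omega) hr6 hr7 hr5 hr8 L hLp hLc
      have hi0 : (0 : ℝ) ≤ i' := Nat.cast_nonneg _
      calc Psi (rho j) (AR j a b (X i')) cR SR L
          ≤ (2 : ℝ) ^ (ε / 4 * i') * W i' / 2 ^ i' * ∑ n ∈ (Ioc a b).filter (Rg j), (QL L n) ^ (1 / 2 - d1) := h1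
        _ ≤ (2 : ℝ) ^ (ε / 4 * i') * W i' / 2 ^ i' * ((2 : ℝ) ^ (ε / 4 * i') *
              (((b : ℝ) - a) + (2 : ℝ) ^ ((1 / 2 - d1 / 5) * (i' : ℝ)))) := by gcongr
        _ = ((2 : ℝ) ^ (ε / 4 * i') * (2 : ℝ) ^ (ε / 4 * i')) * (((b : ℝ) - a) / 2 ^ i' * W i' +
              W i' * ((2 : ℝ) ^ ((1 / 2 - d1 / 5) * (i' : ℝ)) / 2 ^ i')) := by ring
        _ ≤ ((2 : ℝ) ^ (ε / 4 * i') * (2 : ℝ) ^ (ε / 4 * i')) * (((b : ℝ) - a) / 2 ^ i' * W i' +
              1 * (2 : ℝ) ^ (-(1 / 2 + 1 / 10 ^ 5) * (i' : ℝ))) := by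
            have h3 : (2 : ℝ) ^ ((1 / 2 - d1 / 5) * (i' : ℝ)) / 2 ^ i' ≤ (2 : ℝ) ^ (-(1 / 2 + 1 / 10 ^ 5) * (i' : ℝ)) := by
              rw [← Real.rpow_natCast, ← Real.rpow_sub (by norm_num)]
              apply Real.rpow_le_rpow_of_exponent_le (by norm_num)
              unfold d1
              nlinarith
            have h4 := hW1 i'
            gcongr
        _ ≤ (2 : ℝ) ^ (ε * i') * (((b : ℝ) - a) / 2 ^ i' * W i' +
              1 * (2 : ℝ) ^ (-(1 / 2 + 1 / 10 ^ 5) * (i' : ℝ))) := by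
            have h5 : (2 : ℝ) ^ (ε / 4 * i') * (2 : ℝ) ^ (ε / 4 * i') ≤ (2 : ℝ) ^ (ε * i') := by
              rw [← Real.rpow_add (by norm_num)]
              apply Real.rpow_le_rpow_of_exponent_le (by norm_num)
              nlinarith
            gcongr
        _ = (2 : ℝ) ^ (-(ε * i')) * t (i', a, b) := by
            simp only [t]
            rw [← mul_assoc, ← Real.rpow_add (by norm_num), one_mul]
            congr 2
            rw [hε]
            ring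

/-- **KZ-XR** -/
theorem t_XR (hTB : S_TB) (hPW : S_PW) (hRCS : S_RCS) : S_XR := by
  obtain ⟨J, hJ⟩ := gen_vr hTB hPW hRCS (fun _ => 0) (fun _ => 1) (fun _ => zero_le_one) (fun _ => le_rfl) (by
    intro i l hl _
    have h1 : (1 : ℝ) ≤ l := by exact_mod_cast hl
    exact Real.rpow_le_one_of_one_le_of_nonpos h1 (by have := th_pos; linarith))
  refine ⟨J, fun j hj P hP => ?_⟩
  refine (measure_mono ?_).trans (hJ j hj P hP)
  intro V hV hcon
  apply hV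
  intro i a b hji ha hab hb hlen
  have h := hcon i a b hji ha hab hb hlen
  rw [mul_one] at h
  refine le_trans (le_of_eq (sum_congr rfl fun n _ => ?_)) h
  unfold SV SVe
  refine sum_congr ?_ (fun _ _ => rfl)
  ext l
  rw [mem_filter, mem_filter]
  have : (0 : ℝ) ≤ l := Nat.cast_nonneg l
  tauto

/-- **KZ-XL** -/
theorem t_XL (hTB : S_TB) (hPW : S_PW) (hRCS : S_RCS) : S_XL := by
  obtain ⟨J, hJ⟩ := gen_vr hTB hPW hRCS (fun i => (2 : ℝ) ^ ((i : ℝ) / 100))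
    (fun i => (2 : ℝ) ^ (-(1 / 10 ^ 18) * (i : ℝ))) (fun _ => by positivity) (fun i => by
      apply Real.rpow_le_one_of_one_le_of_nonpos (by norm_num)
      have : (0 : ℝ) ≤ i := Nat.cast_nonneg i
      nlinarith) (by
    intro i l hl hx
    have h1 : (0 : ℝ) < (2 : ℝ) ^ ((i : ℝ) / 100) := by positivity
    calc (l : ℝ) ^ (-(dd - d1)) ≤ ((2 : ℝ) ^ ((i : ℝ) / 100)) ^ (-(dd - d1)) :=
          Real.rpow_le_rpow_of_nonpos h1 hx (by have := th_pos; linarith)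
      _ = (2 : ℝ) ^ (-(1 / 10 ^ 18) * (i : ℝ)) := by
          rw [← Real.rpow_mul (by norm_num), th_eq]
          congr 1
          ring)
  refine ⟨J, fun j hj P hP => ?_⟩
  refine (measure_mono ?_).trans (hJ j hj P hP)
  intro V hV hcon
  apply hV
  intro i a b hji ha hab hb hlen
  exact hcon i a b hji ha hab hb hlen

end Pool.Agent.Q265.KZ
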