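import Pool.Agent.Q265.KZ.Basic

/-!
# Project KZ, job XZ: every prime is a host prime of few multipliers
-/

set_option autoImplicit false

namespace Pool.Agent.Q265.KZ

open Finset Filter Topology MeasureTheory
open scoped Classical
open Pool.Agent.W76.MO (hh nc cell lp Rough)
open Pool.Agent.Q18.KZ

lemma Fam_facts (hFF : S_FF) (E : KEnv) {i : ℕ} (hi : E.i₁ ≤ i) {u : ℕ × ℕ} (hu : u ∈ E.Fam i) :
    Squarefree u.1 ∧ u.1.primeFactors.card ≤ 3 ∧ u.2 ≤ 2 ^ (i + 1) := by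
  obtain ⟨hF1, hF2⟩ := hFF E i hi
  unfold KEnv.Fam at hu
  rw [mem_union] at hu
  rcases hu with hu | hu
  · have h := hF1 u hu
    refine ⟨h.1.squarefree, ?_, ?_⟩
    · rw [h.1.primeFactors, card_singleton]
      norm_num
    · unfold KEnv.Fam1 at hu
      rw [mem_filter, mem_product, mem_range] at hu
      omega
  · have h := hF2 u hu
    refine ⟨h.1, h.2.2.2.2.2.1, ?_⟩
    unfold KEnv.Fam2 at hu
    rw [mem_filter, mem_product, mem_range, mem_range] at hu
    omega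

lemma Psi_Z (hFF : S_FF) (E : KEnv) {i : ℕ} (hi : E.i₁ ≤ i) {j : ℕ}
    (hF1 : ∀ q l : ℕ, ∑ u ∈ (E.Fam i).filter (fun u => u.2 = q ∧ l ∣ u.1 ∧ l ≠ u.1),
      (((u.1 / l : ℕ) : ℝ)) ^ (-(1 / 2 : ℝ) + d1) ≤ (2 : ℝ) ^ (-((i : ℝ) / 4000))) (q : ℕ) (L : Finset ℕ) :
    Psi (rho j) ((E.Fam i).filter (fun u => u.2 = q)) (fun _ => 1) (fun u => u.1.primeFactors) L ≤ 2 ^ (L.card + 1) := by
  unfold Psi
  have h1 : ∀ u ∈ (E.Fam i).filter (fun u => u.2 = q), u.1.primeFactors ∩ L ∈ L.powerset := by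
    intro u _
    rw [mem_powerset]
    exact inter_subset_right
  rw [← sum_fiberwise_of_maps_to h1]
  have h2 : ∀ s ∈ L.powerset, ∑ u ∈ ((E.Fam i).filter (fun u => u.2 = q)).filter (fun u => u.1.primeFactors ∩ L = s),
      1 * ∏ p ∈ u.1.primeFactors \ L, rho j p ≤ 2 := by
    intro s _
    obtain ⟨l, hl⟩ : ∃ l : ℕ, l = ∏ p ∈ s, p := ⟨_, rfl⟩
    -- facts on one term
    have h3 : ∀ u ∈ ((E.Fam i).filter (fun u => u.2 = q)).filter (fun u => u.1.primeFactors ∩ L = s),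
        l ∣ u.1 ∧ 1 * ∏ p ∈ u.1.primeFactors \ L, rho j p ≤ (((u.1 / l : ℕ) : ℝ)) ^ (-(1 / 2 : ℝ) + d1) := by
      intro u hu
      rw [mem_filter, mem_filter] at hu
      have h4 := (Fam_facts hFF E hi hu.1.1).1
      have h5 : (∏ p ∈ s, p) * ∏ p ∈ u.1.primeFactors \ L, p = u.1 := by
        have h6 := Nat.prod_primeFactors_of_squarefree h4
        rw [← prod_inter_mul_prod_sdiff (s := u.1.primeFactors) (t := L), hu.2] at h6
        exact h6
      rw [← hl] at h5
      have hu0 : u.1 ≠ 0 := h4.ne_zero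
      have hl0 : 0 < l := by
        rcases Nat.eq_zero_or_pos l with h | h
        · rw [h, zero_mul] at h5
          exact absurd h5.symm hu0
        · exact h
      refine ⟨⟨_, h5.symm⟩, ?_⟩
      have h7 : u.1 / l = ∏ p ∈ u.1.primeFactors \ L, p := by
        rw [← h5, Nat.mul_div_cancel_left _ hl0]
        rw [h5]
      rw [h7, one_mul]
      exact prod_rho_le j _
    have h8 : ((E.Fam i).filter (fun u => u.2 = q)).filter (fun u => u.1.primeFactors ∩ L = s) ⊆
        (E.Fam i).filter (fun u => u.2 = q ∧ l ∣ u.1 ∧ l ≠ u.1) ∪ {(l, q)} := by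
      intro u hu
      have h9 := (h3 u hu).1
      rw [mem_filter, mem_filter] at hu
      rw [mem_union, mem_filter, mem_singleton]
      by_cases h10 : l = u.1
      · right
        exact Prod.ext h10.symm hu.1.2
      · left
        exact ⟨hu.1.1, hu.1.2, h9, h10⟩
    have hnn : ∀ m : ℕ, (0 : ℝ) ≤ (m : ℝ) ^ (-(1 / 2 : ℝ) + d1) := fun m => by positivity
    calc ∑ u ∈ ((E.Fam i).filter (fun u => u.2 = q)).filter (fun u => u.1.primeFactors ∩ L = s),
          1 * ∏ p ∈ u.1.primeFactors \ L, rho j p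
        ≤ ∑ u ∈ ((E.Fam i).filter (fun u => u.2 = q)).filter (fun u => u.1.primeFactors ∩ L = s),
          (((u.1 / l : ℕ) : ℝ)) ^ (-(1 / 2 : ℝ) + d1) := sum_le_sum (fun u hu => (h3 u hu).2)
      _ ≤ ∑ u ∈ (E.Fam i).filter (fun u => u.2 = q ∧ l ∣ u.1 ∧ l ≠ u.1) ∪ {(l, q)},
          (((u.1 / l : ℕ) : ℝ)) ^ (-(1 / 2 : ℝ) + d1) :=
          sum_le_sum_of_subset_of_nonneg h8 (fun u _ _ => hnn _)
      _ ≤ ∑ u ∈ (E.Fam i).filter (fun u => u.2 = q ∧ l ∣ u.1 ∧ l ≠ u.1),
          (((u.1 / l : ℕ) : ℝ)) ^ (-(1 / 2 : ℝ) + d1) + ∑ u ∈ {(l, q)}, (((u.1 / l : ℕ) : ℝ)) ^ (-(1 / 2 : ℝ) + d1) := by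
          rw [← sum_union_inter]
          exact le_add_of_nonneg_right (sum_nonneg fun u _ => hnn _)
      _ ≤ 1 + 1 := by
          apply add_le_add
          · refine (hF1 q l).trans (Real.rpow_le_one_of_one_le_of_nonpos (by norm_num) ?_)
            have : (0 : ℝ) ≤ i := Nat.cast_nonneg i
            linarith
          · rw [sum_singleton]
            show ((l / l : ℕ) : ℝ) ^ (-(1 / 2 : ℝ) + d1) ≤ 1
            rcases Nat.eq_zero_or_pos l with h | h
            · rw [h, Nat.zero_div, Nat.cast_zero, Real.zero_rpow]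
              · exact zero_le_one
              · have := d1_lt
                linarith
            · rw [Nat.div_self h, Nat.cast_one, Real.one_rpow]
      _ = 2 := by norm_num
  refine (sum_le_sum h2).trans ?_
  rw [sum_const, card_powerset, nsmul_eq_mul, pow_succ]
  push_cast
  exact le_rfl

/-- **KZ-XZ** -/
theorem t_XZ (hTB : S_TB) (hFF : S_FF) (hF1 : S_F1) : S_XZ := by
  intro E
  have he0 := e0_pos
  obtain ⟨ε, hε⟩ : ∃ ε : ℝ, ε = e0 / 2 := ⟨_, rfl⟩
  have hε0 : 0 < ε := by rw [hε]; linarith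
  obtain ⟨J₁, hJ₁⟩ := hF1 E
  obtain ⟨J₂, hJ₂⟩ : ∃ J₂ : ℕ, (3 * (10 / ε + 1) + 1) / ε ≤ J₂ := exists_nat_ge _
  refine ⟨max (max J₁ J₂) (max E.i₁ 20), fun j hj P hP => ?_⟩
  have hjJ₁ : J₁ ≤ j := ((le_max_left _ _).trans (le_max_left _ _)).trans hj
  have hjJ₂ : J₂ ≤ j := ((le_max_right _ _).trans (le_max_left _ _)).trans hj
  have hji1 : E.i₁ ≤ j := ((le_max_left _ _).trans (le_max_right _ _)).trans hj
  have hj20 : 20 ≤ j := ((le_max_right _ _).trans (le_max_right _ _)).trans hj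
  let R : ℕ → Finset (ℕ × ℕ) := fun i => ({i} : Finset ℕ) ×ˢ range (2 ^ (i + 1) + 1)
  let t : ℕ × ℕ → ℝ := fun r => (2 : ℝ) ^ (e0 * r.1)
  have hTB' := hTB ε hε0 (rho j) P (rho01 j) hP (ℕ × ℕ) (ℕ × ℕ) R (fun r => (E.Fam r.1).filter (fun u => u.2 = r.2))
    (fun _ _ => 1) (fun _ u => u.1.primeFactors) t j (by omega) ?_ ?_
  · refine (measure_mono ?_).trans hTB'
    intro V hV
    rw [Set.mem_ofPred_eq] at hV
    unfold EvZ at hV
    push Not at hV
    obtain ⟨i, q, hi, h⟩ := hV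
    have hi1 : E.i₁ ≤ i := hji1.trans hi
    refine ⟨i, hi, (i, q), ?_, ?_⟩
    · rw [mem_product, mem_singleton, mem_range]
      refine ⟨rfl, ?_⟩
      have hne : ((E.Fam i).filter (fun u => u.2 = q ∧ Vn V u.1)).Nonempty := by
        rw [nonempty_iff_ne_empty]
        intro h0
        rw [h0, card_empty, Nat.cast_zero] at h
        have : (0 : ℝ) < (2 : ℝ) ^ (e0 * i) := by positivity
        linarith
      obtain ⟨u, hu⟩ := hne
      rw [mem_filter] at hu
      have := (Fam_facts hFF E hi1 hu.1).2.2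
      have := hu.2.1
      show q < _
      omega
    · show (2 : ℝ) ^ (e0 * i) < ZZ ((E.Fam i).filter (fun u => u.2 = q)) (fun _ => 1) (fun u => u.1.primeFactors) V
      refine lt_of_lt_of_eq h ?_
      rw [ZZ_eq _ _ _ _ ((E.Fam i).filter (fun u => u.2 = q ∧ Vn V u.1)), sum_const, nsmul_eq_mul, mul_one]
      intro u
      rw [mem_filter, mem_filter]
      unfold Vn
      tauto
  · intro i hi
    rw [card_product, card_singleton, card_range, one_mul]
    calc 2 ^ (i + 1) + 1 ≤ 2 ^ (i + 1) + 2 ^ (i + 1) := by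
          have : 1 ≤ 2 ^ (i + 1) := Nat.one_le_two_pow
          omega
      _ = 2 ^ (i + 2) := by ring
      _ ≤ 2 ^ (4 * i) := Nat.pow_le_pow_right (by norm_num) (by omega)
  · intro i hi r hr
    obtain ⟨i', q⟩ := r
    rw [mem_product, mem_singleton] at hr
    have hr1 : i' = i := hr.1
    subst hr1
    refine ⟨?_, fun _ _ => zero_le_one, ?_⟩
    · show (0 : ℝ) < (2 : ℝ) ^ (e0 * i')
      positivity
    · rintro L ⟨T, hT, hTc, hL⟩
      have h1 := Psi_Z hFF E (j := j) (hji1.trans hi) (fun q l => hJ₁ i' (hjJ₁.trans hi) q l) q L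
      refine h1.trans ?_
      have hLc : (L.card : ℝ) ≤ 3 * (10 / ε + 1) := by
        have h2 : L.card ≤ ∑ u ∈ T, 3 := by
          rw [hL]
          refine card_biUnion_le.trans (sum_le_sum fun u hu => ?_)
          have h3 := hT hu
          rw [mem_filter] at h3
          exact (Fam_facts hFF E (hji1.trans hi) h3.1).2.1
        rw [sum_const, smul_eq_mul] at h2
        have h3 : (L.card : ℝ) ≤ T.card * 3 := by exact_mod_cast h2
        linarith
      have hi2 : (3 * (10 / ε + 1) + 1) / ε ≤ i' := hJ₂.trans (by exact_mod_cast hjJ₂.trans hi)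
      rw [div_le_iff₀ hε0] at hi2
      show (2 : ℝ) ^ (L.card + 1) ≤ (2 : ℝ) ^ (-(ε * i')) * (2 : ℝ) ^ (e0 * i')
      rw [← Real.rpow_natCast, ← Real.rpow_add (by norm_num)]
      apply Real.rpow_le_rpow_of_exponent_le (by norm_num)
      push_cast
      have h4 : e0 = 2 * ε := by rw [hε]; ring
      rw [h4]
      linarith

end Pool.Agent.Q265.KZ
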